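import Mathlib

/-!
# Regulators, determinants and direct sums
-/

set_option autoImplicit false

open scoped TensorProduct

namespace Pool.Agent.R387.BV

/-- A regulator: a linear map `r` from a rational vector space `M` to `ℝ ⊗ B`, where `B` is a rational
vector space of finite dimension. -/
structure Reg where
  M : Type
  B : Type
  [gM : AddCommGroup M]
  [mM : Module ℚ M]
  [gB : AddCommGroup B]
  [mB : Module ℚ B]
  [finB : Module.Finite ℚ B]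
  r : M →ₗ[ℚ] ℝ ⊗[ℚ] B

attribute [instance] Reg.gM Reg.mM Reg.gB Reg.mB Reg.finB

/-- The extension `ℝ ⊗ M → ℝ ⊗ B` of the regulator. -/
noncomputable def Reg.ext (P : Reg) : ℝ ⊗[ℚ] P.M →ₗ[ℝ] ℝ ⊗[ℚ] P.B := P.r.liftBaseChange ℝ

/-- The extension of the regulator is bijective. -/
def Reg.IsIso (P : Reg) : Prop := Function.Bijective P.ext

/-- The determinant of the regulator with respect to the rational structures `B` and `θ(B) = M`. -/
noncomputable def Reg.det (P : Reg) (θ : P.B ≃ₗ[ℚ] P.M) : ℝ :=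
  LinearMap.det (P.ext ∘ₗ (θ : P.B →ₗ[ℚ] P.M).baseChange ℝ)

/-- The determinant of the regulator with respect to the rational structures `M` and `B` is `L` up to a
rational factor. -/
def Reg.HasDet (P : Reg) (L : ℂ) : Prop :=
  ∃ (θ : P.B ≃ₗ[ℚ] P.M) (q : ℚ), q ≠ 0 ∧ ((P.det θ : ℝ) : ℂ) = q * L

/-- The regulator `P` is the direct sum of the `P' k`. -/
def Reg.SumOf (P : Reg) {n : ℕ} (P' : Fin n → Reg) : Prop :=
  ∃ (f : P.M ≃ₗ[ℚ] ∀ k, (P' k).M) (g : P.B ≃ₗ[ℚ] ∀ k, (P' k).B),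
    ∀ x k, ((LinearMap.proj k ∘ₗ (g : P.B →ₗ[ℚ] ∀ k, (P' k).B)).baseChange ℝ) (P.r x) =
      (P' k).r (f x k)

/-! ### Determinants of direct sums -/

theorem det_pi_dep {n : ℕ} (V : Fin n → Type) [∀ k, AddCommGroup (V k)] [∀ k, Module ℝ (V k)]
    [∀ k, Module.Finite ℝ (V k)] (f : ∀ k, V k →ₗ[ℝ] V k) :
    LinearMap.det (LinearMap.pi fun k => f k ∘ₗ LinearMap.proj k : (∀ k, V k) →ₗ[ℝ] ∀ k, V k) =
      ∏ k, LinearMap.det (f k) := by
  induction n with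
  | zero =>
    rw [Finset.univ_eq_empty, Finset.prod_empty]
    exact LinearMap.det_eq_one_of_subsingleton _
  | succ n ih =>
    rw [Fin.prod_univ_succ, ← ih (fun k => V k.succ) (fun k => f k.succ), ← LinearMap.det_prodMap,
      ← LinearMap.det_conj _ (Fin.consLinearEquiv ℝ V)]
    congr 1
    refine LinearMap.ext fun x => ?_
    funext k
    refine Fin.cases ?_ (fun k => ?_) k
    · rfl
    · rfl

section Sum

variable {P : Reg} {n : ℕ} {P' : Fin n → Reg}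

/-- `ℝ ⊗ B = ∏ ℝ ⊗ B k` -/
noncomputable def tens {n : ℕ} {N : Type} [AddCommGroup N] [Module ℚ N] (V : Fin n → Type)
    [∀ k, AddCommGroup (V k)] [∀ k, Module ℚ (V k)] (g : N ≃ₗ[ℚ] ∀ k, V k) :
    (ℝ ⊗[ℚ] N) ≃ₗ[ℝ] ∀ k, ℝ ⊗[ℚ] V k :=
  (LinearEquiv.baseChange ℚ ℝ N (∀ k, V k) g).trans (TensorProduct.piRight ℚ ℝ ℝ V)

theorem tens_apply {n : ℕ} {N : Type} [AddCommGroup N] [Module ℚ N] (V : Fin n → Type)
    [∀ k, AddCommGroup (V k)] [∀ k, Module ℚ (V k)] (g : N ≃ₗ[ℚ] ∀ k, V k) (z : ℝ ⊗[ℚ] N)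
    (k : Fin n) :
    tens V g z k = ((LinearMap.proj k ∘ₗ (g : N →ₗ[ℚ] ∀ k, V k)).baseChange ℝ) z := by
  induction z using TensorProduct.induction_on with
  | zero => simp
  | add x y hx hy => rw [map_add, map_add, Pi.add_apply, hx, hy]
  | tmul a x => rfl

theorem ext_tmul (P : Reg) (a : ℝ) (x : P.M) : P.ext (a ⊗ₜ x) = a • P.r x := rfl

theorem ext_sum (f : P.M ≃ₗ[ℚ] ∀ k, (P' k).M) (g : P.B ≃ₗ[ℚ] ∀ k, (P' k).B)
    (h : ∀ x k, ((LinearMap.proj k ∘ₗ (g : P.B →ₗ[ℚ] ∀ k, (P' k).B)).baseChange ℝ) (P.r x) =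
      (P' k).r (f x k)) (z : ℝ ⊗[ℚ] P.M) (k : Fin n) :
    tens _ g (P.ext z) k = (P' k).ext (tens _ f z k) := by
  induction z using TensorProduct.induction_on with
  | zero => simp
  | add x y hx hy =>
    rw [map_add, map_add, Pi.add_apply, hx, hy, map_add, Pi.add_apply, map_add]
  | tmul a x =>
    rw [ext_tmul, map_smul, Pi.smul_apply, tens_apply, h]
    rfl

theorem SumOf.iso_iff (h : P.SumOf P') : P.IsIso ↔ ∀ k, (P' k).IsIso := by
  classical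
  obtain ⟨f, g, hfg⟩ := h
  have h1 : (P.ext : ℝ ⊗[ℚ] P.M → ℝ ⊗[ℚ] P.B) =
      (tens _ g).symm ∘ Pi.map (fun k => (P' k).ext) ∘ tens _ f := by
    funext z
    rw [Function.comp_apply, LinearEquiv.eq_symm_apply]
    funext k
    exact ext_sum f g hfg z k
  unfold Reg.IsIso
  rw [h1, EquivLike.comp_bijective, EquivLike.bijective_comp]
  constructor
  · intro H k
    refine ⟨(Pi.map_injective.1 H.1) k, fun y => ?_⟩
    obtain ⟨x, hx⟩ := H.2 (Pi.single k y)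
    refine ⟨x k, ?_⟩
    have := congrFun hx k
    simpa using this
  · exact fun H => Function.Bijective.piMap H

theorem SumOf.det (f : P.M ≃ₗ[ℚ] ∀ k, (P' k).M) (g : P.B ≃ₗ[ℚ] ∀ k, (P' k).B)
    (h : ∀ x k, ((LinearMap.proj k ∘ₗ (g : P.B →ₗ[ℚ] ∀ k, (P' k).B)).baseChange ℝ) (P.r x) =
      (P' k).r (f x k)) (θ : ∀ k, (P' k).B ≃ₗ[ℚ] (P' k).M) :
    P.det ((g.trans (LinearEquiv.piCongrRight θ)).trans f.symm) = ∏ k, (P' k).det (θ k) := by
  unfold Reg.det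
  rw [← det_pi_dep (fun k => ℝ ⊗[ℚ] (P' k).B)
    (fun k => (P' k).ext ∘ₗ ((θ k : (P' k).B →ₗ[ℚ] (P' k).M).baseChange ℝ)),
    ← LinearMap.det_conj (P.ext ∘ₗ _) (tens _ g)]
  congr 1
  refine LinearMap.ext fun z => ?_
  obtain ⟨w, rfl⟩ := (tens _ g).surjective z
  funext k
  have h1 : ∀ w : ℝ ⊗[ℚ] P.B, tens _ f
      ((((g.trans (LinearEquiv.piCongrRight θ)).trans f.symm : P.B ≃ₗ[ℚ] P.M) :
        P.B →ₗ[ℚ] P.M).baseChange ℝ w) k =
      ((θ k : (P' k).B →ₗ[ℚ] (P' k).M).baseChange ℝ) (tens _ g w k) := by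
    intro w
    induction w using TensorProduct.induction_on with
    | zero => simp
    | add x y hx hy => simp only [map_add, Pi.add_apply, hx, hy]
    | tmul a x =>
      change a ⊗ₜ[ℚ] (f (f.symm ((LinearEquiv.piCongrRight θ) (g x))) k) = a ⊗ₜ[ℚ] (θ k (g x k))
      rw [LinearEquiv.apply_symm_apply]
      rfl
  change tens _ g (P.ext _) k = _
  rw [ext_sum f g h]
  change (P' k).ext (tens _ f (((((g.trans (LinearEquiv.piCongrRight θ)).trans f.symm :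
    P.B ≃ₗ[ℚ] P.M) : P.B →ₗ[ℚ] P.M).baseChange ℝ) ((tens _ g).symm (tens _ g w))) k) = _
  rw [LinearEquiv.symm_apply_apply, h1]
  rfl

end Sum

/-! ### The class of the determinant -/

/-- `ℚ^*` in `ℂ^*` -/
noncomputable def QU : Subgroup ℂˣ := (Units.map ((algebraMap ℚ ℂ : ℚ →+* ℂ) : ℚ →* ℂ)).range

/-- `ℂ^* / ℚ^*` -/
def CQ : Type := ℂˣ ⧸ QU

noncomputable instance : CommGroup CQ := QuotientGroup.Quotient.commGroup QU

/-- the projection -/
noncomputable def CQ.mk : ℂˣ →* CQ := QuotientGroup.mk' QU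

/-- the class of a number in `ℂ^* / ℚ^*` -/
noncomputable def clsNum (z : ℂ) : CQ := by
  classical
  exact if h : z = 0 then 1 else CQ.mk (Units.mk0 z h)

theorem clsNum_of {z : ℂ} (h : z ≠ 0) : clsNum z = CQ.mk (Units.mk0 z h) := by
  unfold clsNum
  rw [dif_neg h]

theorem clsNum_mul {z w : ℂ} (hz : z ≠ 0) (hw : w ≠ 0) : clsNum (z * w) = clsNum z * clsNum w := by
  rw [clsNum_of hz, clsNum_of hw, clsNum_of (mul_ne_zero hz hw), ← map_mul]
  congr 1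
  exact Units.ext rfl

theorem clsNum_prod {ι : Type} (s : Finset ι) (z : ι → ℂ) (h : ∀ k ∈ s, z k ≠ 0) :
    clsNum (∏ k ∈ s, z k) = ∏ k ∈ s, clsNum (z k) := by
  classical
  induction s using Finset.induction_on with
  | empty =>
    rw [Finset.prod_empty, Finset.prod_empty, clsNum_of one_ne_zero, ← map_one CQ.mk]
    exact congrArg CQ.mk (Units.ext rfl : Units.mk0 (1 : ℂ) one_ne_zero = 1)
  | insert a s ha ih =>
    rw [Finset.prod_insert ha, Finset.prod_insert ha,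
      clsNum_mul (h a (Finset.mem_insert_self a s))
        (Finset.prod_ne_zero_iff.2 fun k hk => h k (Finset.mem_insert_of_mem hk)),
      ih fun k hk => h k (Finset.mem_insert_of_mem hk)]

theorem clsNum_eq_iff {z w : ℂ} (hz : z ≠ 0) (hw : w ≠ 0) :
    clsNum z = clsNum w ↔ ∃ q : ℚ, q ≠ 0 ∧ z = q * w := by
  have h0 : CQ.mk (Units.mk0 z hz) = CQ.mk (Units.mk0 w hw) ↔
      (Units.mk0 w hw)⁻¹ * Units.mk0 z hz ∈ QU := by
    rw [eq_comm]
    exact QuotientGroup.eq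
  rw [clsNum_of hz, clsNum_of hw, h0]
  constructor
  · rintro ⟨q, hq⟩
    refine ⟨q, q.ne_zero, ?_⟩
    have h1 := congrArg (Units.val) hq
    have h2 : ((q : ℚ) : ℂ) = w⁻¹ * z := by
      simpa using h1
    rw [h2]
    field_simp
  · rintro ⟨q, hq, h1⟩
    refine ⟨Units.mk0 q hq, Units.ext ?_⟩
    have h2 : ((q : ℚ) : ℂ) = w⁻¹ * z := by
      rw [h1]
      field_simp
    simpa using h2

theorem exists_theta {P : Reg} (h : P.IsIso) : Nonempty (P.B ≃ₗ[ℚ] P.M) := by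
  have e : (ℝ ⊗[ℚ] P.M) ≃ₗ[ℝ] ℝ ⊗[ℚ] P.B := LinearEquiv.ofBijective P.ext h
  have h1 : Module.rank ℝ (ℝ ⊗[ℚ] P.M) = Module.rank ℝ (ℝ ⊗[ℚ] P.B) := e.rank_eq
  rw [Module.rank_baseChange, Module.rank_baseChange, Cardinal.lift_id, Cardinal.lift_id] at h1
  exact ⟨(LinearEquiv.ofRankEq _ _ h1.symm)⟩

theorem det_ne_zero {P : Reg} (h : P.IsIso) (θ : P.B ≃ₗ[ℚ] P.M) : P.det θ ≠ 0 := by
  unfold Reg.det
  have e : (ℝ ⊗[ℚ] P.M) ≃ₗ[ℝ] ℝ ⊗[ℚ] P.B := LinearEquiv.ofBijective P.ext h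
  have h1 : P.ext ∘ₗ (θ : P.B →ₗ[ℚ] P.M).baseChange ℝ =
      (((LinearEquiv.baseChange ℚ ℝ P.B P.M θ).trans (LinearEquiv.ofBijective P.ext h) :
        (ℝ ⊗[ℚ] P.B) ≃ₗ[ℝ] ℝ ⊗[ℚ] P.B) : (ℝ ⊗[ℚ] P.B) →ₗ[ℝ] ℝ ⊗[ℚ] P.B) := by
    refine LinearMap.ext fun z => ?_
    rfl
  rw [h1]
  exact (LinearEquiv.isUnit_det' _).ne_zero

/-- the determinant is unique up to rational numbers -/
theorem det_unique {P : Reg} (h : P.IsIso) (θ θ' : P.B ≃ₗ[ℚ] P.M) :
    clsNum (P.det θ : ℝ) = clsNum (P.det θ' : ℝ) := by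
  rw [clsNum_eq_iff (by exact_mod_cast det_ne_zero h θ) (by exact_mod_cast det_ne_zero h θ')]
  refine ⟨LinearMap.det ((θ.trans θ'.symm : P.B ≃ₗ[ℚ] P.B) : P.B →ₗ[ℚ] P.B),
    (LinearEquiv.isUnit_det' _).ne_zero, ?_⟩
  have h1 : P.det θ = ((LinearMap.det ((θ.trans θ'.symm : P.B ≃ₗ[ℚ] P.B) : P.B →ₗ[ℚ] P.B) : ℚ) : ℝ) *
      P.det θ' := by
    have h2 := LinearMap.det_baseChange (A := ℝ)
      (f := ((θ.trans θ'.symm : P.B ≃ₗ[ℚ] P.B) : P.B →ₗ[ℚ] P.B))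
    rw [eq_ratCast] at h2
    rw [← h2, mul_comm]
    unfold Reg.det
    rw [← LinearMap.det_comp]
    congr 1
    refine LinearMap.ext fun z => ?_
    rw [LinearMap.comp_apply, LinearMap.comp_apply, LinearMap.comp_apply]
    congr 1
    induction z using TensorProduct.induction_on with
    | zero => simp
    | add x y hx hy => simp only [map_add, hx, hy]
    | tmul a x =>
      change a ⊗ₜ[ℚ] θ x = a ⊗ₜ[ℚ] (θ' (θ'.symm (θ x)))
      rw [LinearEquiv.apply_symm_apply]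
  rw [h1]
  push_cast
  rfl

/-- the class of the determinant in `ℂ^* / ℚ^*` -/
noncomputable def Reg.cls (P : Reg) : CQ := by
  classical
  exact if h : P.IsIso then clsNum (P.det (exists_theta h).some : ℝ) else 1

theorem cls_eq {P : Reg} (h : P.IsIso) (θ : P.B ≃ₗ[ℚ] P.M) : P.cls = clsNum (P.det θ : ℝ) := by
  unfold Reg.cls
  rw [dif_pos h]
  exact det_unique h _ _

theorem hasDet_iff {P : Reg} (h : P.IsIso) {L : ℂ} (hL : L ≠ 0) : P.HasDet L ↔ P.cls = clsNum L := by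
  constructor
  · rintro ⟨θ, q, hq, h1⟩
    rw [cls_eq h θ, clsNum_eq_iff (by exact_mod_cast det_ne_zero h θ) hL]
    exact ⟨q, hq, h1⟩
  · intro H
    obtain ⟨θ⟩ := exists_theta h
    rw [cls_eq h θ, clsNum_eq_iff (by exact_mod_cast det_ne_zero h θ) hL] at H
    obtain ⟨q, hq, h1⟩ := H
    exact ⟨θ, q, hq, h1⟩

theorem SumOf.cls {P : Reg} {n : ℕ} {P' : Fin n → Reg} (h : P.SumOf P') (hP : ∀ k, (P' k).IsIso) :
    P.cls = ∏ k, (P' k).cls := by
  have hI := (SumOf.iso_iff h).2 hP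
  obtain ⟨f, g, hfg⟩ := h
  rw [cls_eq hI ((g.trans (LinearEquiv.piCongrRight fun k => (exists_theta (hP k)).some)).trans
    f.symm), SumOf.det f g hfg]
  have h1 : ((∏ k, (P' k).det (exists_theta (hP k)).some : ℝ) : ℂ) =
      ∏ k, (((P' k).det (exists_theta (hP k)).some : ℝ) : ℂ) := by push_cast; rfl
  rw [h1, clsNum_prod _ _ fun k _ => by exact_mod_cast det_ne_zero (hP k) _]
  exact Finset.prod_congr rfl fun k _ => (cls_eq (hP k) _).symm

end Pool.Agent.R387.BV
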