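import Mathlib
import Pool.Agent.R387.BV.Lin

/-!
# Beilinson's conjecture for `K_j` at the integers `s = -a`: definitions
-/

set_option autoImplicit false

open CategoryTheory CategoryTheory.Limits AlgebraicGeometry

namespace Pool.Agent.R387.BV

/-- A smooth proper variety over `ℚ`: irreducible, but perhaps not geometrically irreducible. -/
structure Var where
  /-- the underlying scheme -/
  X : Scheme.{0}
  /-- the structure morphism -/
  str : X ⟶ Spec (.of ℚ)
  /-- the dimension -/
  dim : ℕ
  smooth : SmoothOfRelativeDimension dim str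
  proper : IsProper str
  irred : IrreducibleSpace X

/-- A class of varieties, for example the class of all smooth projective varieties over `ℚ`. -/
structure VarClass where
  mem : Var → Prop

/-- The varieties in the class `S`. -/
structure VarClass.Obj (S : VarClass) where
  V : Var
  mem : S.mem V

/-- the dimension -/
def VarClass.Obj.dim {S : VarClass} (X : S.Obj) : ℕ := X.V.dim

/-- Integral elements of K-theory, regulators, L-functions, products with projective spaces and
blow-ups. -/
structure Data (S : VarClass) where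
  /-- `reg X j a` is the regulator `K_j(X)_ℤ^{(j-a)} → H_B^{i}(X_ℝ, ℝ(j-a-1))^{F_∞ = 1} = ℝ ⊗ B`, where
  `i = j - 1 - 2 a` and `B = H_B^{i}(X_ℝ, ℚ(j-a-1))^{F_∞ = 1}`; it belongs to `L(h^i(X), s)` at `s = -a`. -/
  reg : S.Obj → ℕ → ℕ → Reg
  /-- `L X i` is the function `L(h^i(X), s)`, defined for `Re s > i/2 + 1`; for `i < 0` it is `1`. -/
  L : S.Obj → ℤ → ℂ → ℂ
  /-- `Spec ℚ` -/
  pt : S.Obj
  /-- `prod X m = ℙ^m × X` -/
  prod : S.Obj → ℕ → S.Obj
  /-- `Blow B X W c`: `B` is the blow-up of `X` along a closed subvariety isomorphic to `W`, of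
  codimension `c + 1` -/
  Blow : S.Obj → S.Obj → S.Obj → ℕ → Prop

variable {S : VarClass} (D : Data S)

/-- `f` is the meromorphic continuation of `L(h^i(X), s)` to the complex plane. (The condition that `f`
does not vanish identically is automatic, since the L-function is an Euler product.) -/
structure Continues (X : S.Obj) (i : ℤ) (f : ℂ → ℂ) : Prop where
  mero : MeromorphicOn f Set.univ
  ne_zero : ∀ s, meromorphicOrderAt f s ≠ ⊤
  eq : ∀ s : ℂ, (i : ℝ) / 2 + 1 < s.re → f s = D.L X i s

/-- `X` is good: all its L-functions have a meromorphic continuation to the complex plane. -/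
def Good (X : S.Obj) : Prop := ∀ i, ∃ f, Continues D X i f

/-- Beilinson's conjecture for `K_j(X)` at `s = -a`: the regulator `K_j(X)_ℤ^{(j-a)} → ℝ ⊗ B` extends to an
isomorphism of real vector spaces, and its determinant is, up to a rational factor, the leading
coefficient of `L(h^{j-1-2a}(X), s)` at `s = -a`, if this L-function has a meromorphic continuation. For
`a = 0` this is the statement of Q1 for `X` and `j`. -/
structure Beilinson (X : S.Obj) (j a : ℕ) : Prop where
  iso : (D.reg X j a).IsIso
  det : ∀ f, Continues D X ((j : ℤ) - 1 - 2 * a) f →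
    (D.reg X j a).HasDet (meromorphicTrailingCoeffAt f (-(a : ℂ)))

/-- The projective bundle formula for `P = ℙ^m × X`: `h^i(P) = ⨁ h^{i-2k}(X)(-k)`, `0 ≤ k ≤ m`. -/
structure IsProd (m : ℕ) (P X : S.Obj) : Prop where
  dim : P.dim = X.dim + m
  coh : ∀ j a, (D.reg P j a).SumOf fun k : Fin (m + 1) => D.reg X j (a + k)
  L : ∀ (i : ℤ) (s : ℂ), (i : ℝ) / 2 + 1 < s.re →
    D.L P i s = ∏ k : Fin (m + 1), D.L X (i - 2 * (k : ℕ)) (s - (k : ℕ))

/-- The first term and the other terms of the blow-up formula. -/
def pick {α : Type*} {c : ℕ} (x : α) (w : ℕ → α) (k : Fin (c + 1)) : α :=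
  if (k : ℕ) = 0 then x else w k

/-- The blow-up formula: `h^i(B) = h^i(X) ⊕ ⨁ h^{i-2k}(W)(-k)`, `0 < k ≤ c`. -/
structure IsBlowUp (B X W : S.Obj) (c : ℕ) : Prop where
  dim : B.dim = X.dim
  codim : X.dim = W.dim + c + 1
  coh : ∀ j a, (D.reg B j a).SumOf fun k : Fin (c + 1) =>
    pick (D.reg X j a) (fun k => D.reg W j (a + k)) k
  L : ∀ (i : ℤ) (s : ℂ), (i : ℝ) / 2 + 1 < s.re →
    D.L B i s = ∏ k : Fin (c + 1), pick (D.L X i s) (fun k => D.L W (i - 2 * (k : ℕ)) (s - (k : ℕ))) k

/-- The formal properties: projective bundles, blow-ups, and the closed embeddings of every variety in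
projective spaces of all sufficiently large dimensions. -/
structure IsData : Prop where
  pt_dim : D.pt.dim = 0
  prod : ∀ X m, IsProd D m (D.prod X m) X
  blowUp : ∀ {B X W : S.Obj} {c : ℕ}, D.Blow B X W c → IsBlowUp D B X W c
  embed : ∀ X : S.Obj, ∃ c₀ : ℕ, ∀ c ≥ c₀, ∃ B, D.Blow B (D.prod D.pt (X.dim + c + 1)) X c

/-- The varieties which are obtained from projective spaces by blowing up good centres finitely many
times. -/
inductive Tower : S.Obj → Prop
  | base (N : ℕ) : Tower (D.prod D.pt N)
  | blowUp {B X W : S.Obj} {c : ℕ} : Tower X → Good D W → D.Blow B X W c → Tower B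

/-! ### The statements -/

/-- For the number `j`: Q1 for all towers is equivalent to Beilinson's conjecture for all good
varieties and all `s = -a`, `a ≥ 1`. -/
def TowersIff (j : ℕ) : Prop :=
  (∀ B, Tower D B → Beilinson D B j 0) ↔ ∀ W, Good D W → ∀ a, 1 ≤ a → Beilinson D W j a

/-- For the number `j`: Q1 for all good varieties is equivalent to Beilinson's conjecture for all good
varieties and all `s = -a`, `a ≥ 0`. -/
def AllIff (j : ℕ) : Prop :=
  (∀ X, Good D X → Beilinson D X j 0) ↔ ∀ X, Good D X → ∀ a, Beilinson D X j a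

/-- For the number `j`: if Q1 holds for all towers, then for all good varieties it is invariant under
blow-ups and under products with projective spaces. -/
def Invariance (j : ℕ) : Prop := (∀ B, Tower D B → Beilinson D B j 0) →
  (∀ (B X W : S.Obj) (c : ℕ), Good D X → Good D W → D.Blow B X W c →
    (Beilinson D B j 0 ↔ Beilinson D X j 0)) ∧
    ∀ (X : S.Obj) (m : ℕ), Good D X → (Beilinson D (D.prod X m) j 0 ↔ Beilinson D X j 0)

/-- For the numbers `j` and `N`: Q1 for all good varieties of dimension `≤ N` is equivalent to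
Beilinson's conjecture for all good varieties of dimension `≤ N - a` at `s = -a`, `a ≥ 0`. -/
def UpToDimension (j N : ℕ) : Prop :=
  (∀ X, Good D X → X.dim ≤ N → Beilinson D X j 0) ↔
    ∀ X, Good D X → ∀ a, X.dim + a ≤ N → Beilinson D X j a

end Pool.Agent.R387.BV
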