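import Mathlib
import Pool.Agent.R387.BV.Defs

/-!
# Beilinson's conjecture for `K_j` at the integers `s = -a`: proofs
-/

set_option autoImplicit false

open Filter Topology

namespace Pool.Agent.R387.BV

variable {S : VarClass} {D : Data S}

/-! ### Continuations -/

theorem Continues.congr {X : S.Obj} {i : ℤ} {f g : ℂ → ℂ} (hf : Continues D X i f)
    (hg : Continues D X i g) (s : ℂ) : f =ᶠ[𝓝[≠] s] g := by
  have hm : MeromorphicOn (f - g) Set.univ := hf.mero.sub hg.mero
  have h0 : meromorphicOrderAt (f - g) (((i : ℝ) / 2 + 1 : ℝ) + 1 : ℂ) = ⊤ := by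
    rw [meromorphicOrderAt_eq_top_iff]
    have h1 : ∀ᶠ z in 𝓝 (((i : ℝ) / 2 + 1 : ℝ) + 1 : ℂ), (i : ℝ) / 2 + 1 < z.re := by
      have : IsOpen {z : ℂ | (i : ℝ) / 2 + 1 < z.re} := isOpen_lt continuous_const Complex.continuous_re
      refine this.mem_nhds ?_
      change (i : ℝ) / 2 + 1 < (((((i : ℝ) / 2 + 1 : ℝ) : ℂ)) + 1).re
      rw [Complex.add_re, Complex.ofReal_re, Complex.one_re]
      linarith
    refine (h1.filter_mono nhdsWithin_le_nhds).mono fun z hz => ?_
    rw [Pi.sub_apply, hf.eq z hz, hg.eq z hz, sub_self]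
  have h1 : meromorphicOrderAt (f - g) s = ⊤ := by
    by_contra h
    exact hm.meromorphicOrderAt_ne_top_of_isPreconnected isPreconnected_univ (Set.mem_univ s)
      (Set.mem_univ _) h h0
  rw [meromorphicOrderAt_eq_top_iff] at h1
  exact h1.mono fun z hz => by rwa [Pi.sub_apply, sub_eq_zero] at hz

variable (D) in
/-- the leading coefficient of the L-function at `-a` -/
noncomputable def val (X : S.Obj) (i : ℤ) (a : ℕ) : ℂ := by
  classical
  exact if h : ∃ f, Continues D X i f then meromorphicTrailingCoeffAt h.choose (-(a : ℂ)) else 1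

theorem Continues.val {X : S.Obj} {i : ℤ} {f : ℂ → ℂ} (hf : Continues D X i f) (a : ℕ) :
    meromorphicTrailingCoeffAt f (-(a : ℂ)) = val D X i a := by
  have h : ∃ f, Continues D X i f := ⟨f, hf⟩
  unfold BV.val
  rw [dif_pos h]
  exact meromorphicTrailingCoeffAt_congr_nhdsNE (hf.congr h.choose_spec _)

theorem val_ne_zero (X : S.Obj) (i : ℤ) (a : ℕ) : val D X i a ≠ 0 := by
  unfold val
  split_ifs with h
  · exact (h.choose_spec.mero _ (Set.mem_univ _)).meromorphicTrailingCoeffAt_ne_zero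
      (h.choose_spec.ne_zero _)
  · exact one_ne_zero

theorem shift_mero {f : ℂ → ℂ} (hf : MeromorphicOn f Set.univ) (c : ℂ) :
    MeromorphicOn (fun s => f (s - c)) Set.univ := by
  intro s _
  have h2 : MeromorphicAt f ((fun z : ℂ => z - c) s) := hf (s - c) (Set.mem_univ _)
  have h3 : AnalyticAt ℂ (fun z : ℂ => z - c) s := by fun_prop
  exact MeromorphicAt.comp_analyticAt (g := fun z : ℂ => z - c) h2 h3

theorem sum_ne_top {ι : Type} (s : Finset ι) (f : ι → WithTop ℤ) (h : ∀ k ∈ s, f k ≠ ⊤) :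
    ∑ k ∈ s, f k ≠ ⊤ := by
  rw [Ne, WithTop.sum_eq_top]
  rintro ⟨k, hk, h1⟩
  exact h k hk h1

/-- a product formula for L-functions gives a formula for the leading coefficients -/
theorem val_of_formula {Y : S.Obj} {i : ℤ} {n : ℕ} (X : Fin n → S.Obj) (c : Fin n → ℕ)
    (hz : ∀ s : ℂ, (i : ℝ) / 2 + 1 < s.re →
      D.L Y i s = ∏ k, D.L (X k) (i - 2 * (c k : ℕ)) (s - (c k : ℕ)))
    (hX : ∀ k, ∃ f, Continues D (X k) (i - 2 * (c k : ℕ)) f) :
    (∃ f, Continues D Y i f) ∧ ∀ a, val D Y i a = ∏ k, val D (X k) (i - 2 * (c k : ℕ)) (a + c k) := by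
  choose f hf using hX
  have hm : ∀ k, MeromorphicOn (fun s => f k (s - (c k : ℕ))) Set.univ :=
    fun k => shift_mero (hf k).mero _
  have ho : ∀ k s, meromorphicOrderAt (fun s => f k (s - (c k : ℕ))) s ≠ ⊤ := by
    intro k s
    have h1 : meromorphicOrderAt (fun s => f k (s - (c k : ℕ))) s =
        meromorphicOrderAt (f k) (s - (c k : ℕ)) :=
      meromorphicOrderAt_comp_sub_const_eq_meromorphicOrderAt
    rw [h1]
    exact (hf k).ne_zero _
  have hc : Continues D Y i fun s => ∏ k, f k (s - (c k : ℕ)) := by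
    refine ⟨fun s hs => MeromorphicAt.fun_prod fun k _ => hm k s hs, fun s => ?_, fun s hs => ?_⟩
    · rw [meromorphicOrderAt_fun_prod fun k _ => hm k s (Set.mem_univ s)]
      exact sum_ne_top _ _ fun k _ => ho k s
    · rw [hz s hs]
      refine Finset.prod_congr rfl fun k _ => (hf k).eq _ ?_
      rw [Complex.sub_re, Complex.natCast_re]
      push_cast
      linarith
  refine ⟨⟨_, hc⟩, fun a => ?_⟩
  rw [← hc.val a, meromorphicTrailingCoeffAt_fun_prod fun k _ => hm k _ (Set.mem_univ _)]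
  refine Finset.prod_congr rfl fun k _ => ?_
  have h1 : meromorphicTrailingCoeffAt (fun s => f k (s - (c k : ℕ))) (-(a : ℂ)) =
      meromorphicTrailingCoeffAt (f k) (-(a : ℂ) - (c k : ℕ)) :=
    meromorphicTrailingCoeffAt_comp_sub_const_eq_meromorphicTrailingCoeffAt
  rw [h1, ← (hf k).val]
  congr 1
  push_cast
  ring

/-! ### Defects -/

variable (D) in
/-- the quotient of the determinant and the leading coefficient in `ℂ^* / ℚ^*` -/
noncomputable def defect (X : S.Obj) (j a : ℕ) : Additive CQ :=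
  Additive.ofMul (D.reg X j a).cls - Additive.ofMul (clsNum (val D X ((j : ℤ) - 1 - 2 * a) a))

theorem beilinson_iff {X : S.Obj} (hX : Good D X) (j a : ℕ) :
    Beilinson D X j a ↔ (D.reg X j a).IsIso ∧ defect D X j a = 0 := by
  have h1 : ∀ h : (D.reg X j a).IsIso, ((D.reg X j a).HasDet (val D X ((j : ℤ) - 1 - 2 * a) a) ↔
      defect D X j a = 0) := by
    intro h
    rw [hasDet_iff h (val_ne_zero _ _ _)]
    unfold defect
    rw [sub_eq_zero]
    exact Iff.rfl
  constructor
  · intro H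
    refine ⟨H.iso, (h1 H.iso).1 ?_⟩
    obtain ⟨f, hf⟩ := hX ((j : ℤ) - 1 - 2 * a)
    rw [← hf.val]
    exact H.det f hf
  · rintro ⟨H1, H2⟩
    refine ⟨H1, fun f hf => ?_⟩
    rw [hf.val]
    exact (h1 H1).2 H2

/-- the consequences of the formulas -/
theorem sum_formula {Y : S.Obj} {n : ℕ} (X : Fin n → S.Obj) (c : Fin n → ℕ)
    (hcoh : ∀ j a, (D.reg Y j a).SumOf fun k => D.reg (X k) j (a + c k))
    (hz : ∀ (i : ℤ) (s : ℂ), (i : ℝ) / 2 + 1 < s.re →
      D.L Y i s = ∏ k, D.L (X k) (i - 2 * (c k : ℕ)) (s - (c k : ℕ)))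
    (hX : ∀ k, Good D (X k)) :
    Good D Y ∧ ∀ j a, ((D.reg Y j a).IsIso ↔ ∀ k, (D.reg (X k) j (a + c k)).IsIso) ∧
      ((∀ k, (D.reg (X k) j (a + c k)).IsIso) →
        defect D Y j a = ∑ k, defect D (X k) j (a + c k)) := by
  refine ⟨fun i => (val_of_formula X c (hz i) fun k => hX k _).1, fun j a => ⟨SumOf.iso_iff (hcoh j a),
    fun h => ?_⟩⟩
  have h1 := SumOf.cls (hcoh j a) h
  have h2 := (val_of_formula X c (hz ((j : ℤ) - 1 - 2 * a)) fun k => hX k _).2 a
  unfold defect
  rw [h1, h2, clsNum_prod _ _ fun k _ => val_ne_zero _ _ _, Finset.sum_sub_distrib, ofMul_prod,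
    ofMul_prod]
  congr 1
  refine Finset.sum_congr rfl fun k _ => ?_
  congr 3
  push_cast
  ring

theorem prod_formula {m : ℕ} {P X : S.Obj} (h : IsProd D m P X) (hX : Good D X) :
    Good D P ∧ ∀ j a, ((D.reg P j a).IsIso ↔ ∀ k : Fin (m + 1), (D.reg X j (a + k)).IsIso) ∧
      ((∀ k : Fin (m + 1), (D.reg X j (a + k)).IsIso) →
        defect D P j a = ∑ k : Fin (m + 1), defect D X j (a + k)) :=
  sum_formula (fun _ => X) (fun k => (k : ℕ)) h.coh h.L fun _ => hX

theorem blow_formula {B X W : S.Obj} {c : ℕ} (h : IsBlowUp D B X W c) (hX : Good D X)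
    (hW : Good D W) :
    Good D B ∧ ∀ j a, ((D.reg B j a).IsIso ↔
        (D.reg X j a).IsIso ∧ ∀ k : Fin c, (D.reg W j (a + (k + 1))).IsIso) ∧
      ((D.reg X j a).IsIso → (∀ k : Fin c, (D.reg W j (a + (k + 1))).IsIso) →
        defect D B j a = defect D X j a + ∑ k : Fin c, defect D W j (a + (k + 1))) := by
  have h1 := sum_formula (Y := B) (fun k : Fin (c + 1) => pick X (fun _ => W) k) (fun k => (k : ℕ))
    (by
      intro j a
      have h2 := h.coh j a
      have h3 : (fun k : Fin (c + 1) => pick (D.reg X j a) (fun k => D.reg W j (a + k)) k) =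
          fun k : Fin (c + 1) => D.reg (pick X (fun _ => W) k) j (a + k) := by
        funext k
        unfold pick
        split_ifs with hk
        · rw [hk, add_zero]
        · rfl
      rwa [h3] at h2)
    (by
      intro i s hs
      rw [h.L i s hs]
      refine Finset.prod_congr rfl fun k _ => ?_
      unfold pick
      split_ifs with hk
      · rw [hk]
        simp
      · rfl)
    (by
      intro k
      unfold pick
      split_ifs with hk
      · exact hX
      · exact hW)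
  have h0 : pick X (fun _ => W) (0 : Fin (c + 1)) = X := if_pos rfl
  have hs : ∀ k : Fin c, pick X (fun _ => W) k.succ = W := fun k => if_neg (by simp)
  refine ⟨h1.1, fun j a => ?_⟩
  have h2 := h1.2 j a
  have h3 : (∀ k : Fin (c + 1), (D.reg (pick X (fun _ => W) k) j (a + k)).IsIso) ↔
      (D.reg X j a).IsIso ∧ ∀ k : Fin c, (D.reg W j (a + (k + 1))).IsIso := by
    rw [Fin.forall_fin_succ, h0, Fin.val_zero, add_zero]
    refine and_congr_right fun _ => forall_congr' fun k => ?_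
    rw [hs, Fin.val_succ]
  rw [h3] at h2
  refine ⟨h2.1, fun hx hw => ?_⟩
  rw [h2.2 ⟨hx, hw⟩, Fin.sum_univ_succ, h0, Fin.val_zero, add_zero]
  congr 1

/-! ### Arithmetic -/

/-- If the sums `∑ e (a + k)`, `1 ≤ a ≤ c`, `0 ≤ k ≤ m`, vanish for every `m` and all large `c`, then
`e j = 0` for `j ≥ 1`. -/
theorem telescope {A : Type} [AddCommGroup A] (e : ℕ → A)
    (h : ∀ m : ℕ, ∃ c₀ : ℕ, ∀ c ≥ c₀, ∑ a : Fin c, ∑ k : Fin (m + 1), e ((a : ℕ) + 1 + k) = 0)
    (j : ℕ) (hj : 1 ≤ j) : e j = 0 := by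
  have h' : ∀ m : ℕ, ∃ c₀ : ℕ, ∀ c ≥ c₀,
      ∑ a ∈ Finset.range c, ∑ k ∈ Finset.range (m + 1), e (a + 1 + k) = 0 := by
    intro m
    obtain ⟨c₀, hc⟩ := h m
    refine ⟨c₀, fun c hc' => ?_⟩
    rw [← hc c hc', ← Fin.sum_univ_eq_sum_range (fun a => ∑ k ∈ Finset.range (m + 1), e (a + 1 + k))]
    exact Finset.sum_congr rfl fun a _ => (Fin.sum_univ_eq_sum_range (fun k => e (a + 1 + k)) _).symm
  obtain ⟨A, hA⟩ : ∃ A : ℕ, ∀ a ≥ A, e a = 0 := by
    obtain ⟨c₀, hc⟩ := h' 0
    refine ⟨c₀ + 1, fun a ha => ?_⟩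
    obtain ⟨b, rfl⟩ : ∃ b, a = b + 1 := ⟨a - 1, by omega⟩
    have h1 := hc b (by omega)
    have h2 := hc (b + 1) (by omega)
    rw [Finset.sum_range_succ, h1, zero_add, zero_add, Finset.sum_range_one, add_zero] at h2
    exact h2
  have hs : ∀ m : ℕ, ∑ k ∈ Finset.range (m + 1), ∑ a ∈ Finset.range A, e (a + 1 + k) = 0 := by
    intro m
    obtain ⟨c₀, hc⟩ := h' m
    have h1 := hc (A + c₀) (by omega)
    rw [Finset.sum_comm] at h1
    rw [← h1]
    refine Finset.sum_congr rfl fun k _ => ?_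
    rw [Finset.sum_range_add, left_eq_add]
    exact Finset.sum_eq_zero fun a _ => hA _ (by omega)
  have hk : ∀ k : ℕ, ∑ a ∈ Finset.range A, e (a + 1 + k) = 0 := by
    intro k
    rcases k with _ | k
    · simpa using hs 0
    · have h1 := hs (k + 1)
      rw [Finset.sum_range_succ, hs k, zero_add] at h1
      exact h1
  obtain ⟨k, rfl⟩ : ∃ k, j = k + 1 := ⟨j - 1, by omega⟩
  have h1 := hk k
  have h2 := hk (k + 1)
  have h3 : ∑ a ∈ Finset.range (A + 1), e (a + 1 + k) = 0 := by
    rw [Finset.sum_range_succ, h1, hA _ (by omega), add_zero]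
  rw [Finset.sum_range_succ'] at h3
  have h4 : ∑ a ∈ Finset.range A, e (a + 1 + 1 + k) = ∑ a ∈ Finset.range A, e (a + 1 + (k + 1)) :=
    Finset.sum_congr rfl fun a _ => by congr 1; omega
  rw [h4, h2, zero_add] at h3
  rw [show k + 1 = 0 + 1 + k by omega]
  exact h3

/-! ### The theorems -/

theorem tower_good (h : IsData D) (hpt : Good D D.pt) {B : S.Obj} (hB : Tower D B) : Good D B := by
  induction hB with
  | base N => exact (prod_formula (h.prod D.pt N) hpt).1
  | blowUp hX hW hb ih => exact (blow_formula (h.blowUp hb) ih hW).1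

theorem iso_of_towers (h : IsData D) (hpt : Good D D.pt) {j : ℕ}
    (H : ∀ B, Tower D B → Beilinson D B j 0) (W : S.Obj) (hW : Good D W) (a : ℕ) (ha : 1 ≤ a) :
    (D.reg W j a).IsIso := by
  obtain ⟨c₀, hc⟩ := h.embed W
  obtain ⟨B, hB⟩ := hc (c₀ + a) (by omega)
  have hP := Tower.base (D := D) (W.dim + (c₀ + a) + 1)
  have h1 := (((blow_formula (h.blowUp hB) (tower_good h hpt hP) hW).2 j 0).1.1
    (H B (Tower.blowUp hP hW hB)).iso).2 ⟨a - 1, by omega⟩
  change (D.reg W j (0 + (a - 1 + 1))).IsIso at h1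
  rwa [show 0 + (a - 1 + 1) = a by omega] at h1

theorem negative_of_towers (h : IsData D) (hpt : Good D D.pt) {j : ℕ}
    (H : ∀ B, Tower D B → Beilinson D B j 0) (W : S.Obj) (hW : Good D W) (a : ℕ) (ha : 1 ≤ a) :
    Beilinson D W j a := by
  have hiso := iso_of_towers h hpt H
  refine (beilinson_iff hW j a).2 ⟨hiso W hW a ha, ?_⟩
  refine telescope (defect D W j) (fun m => ?_) a ha
  have h1 := prod_formula (h.prod W m) hW
  obtain ⟨c₀, hc⟩ := h.embed (D.prod W m)
  refine ⟨c₀, fun c hc' => ?_⟩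
  obtain ⟨B, hB⟩ := hc c hc'
  have hP := Tower.base (D := D) ((D.prod W m).dim + c + 1)
  have hPg := tower_good h hpt hP
  have h2 := blow_formula (h.blowUp hB) hPg h1.1
  have h3 := (beilinson_iff h2.1 j 0).1 (H B (Tower.blowUp hP h1.1 hB))
  have h4 := (beilinson_iff hPg j 0).1 (H _ hP)
  have h5 := (h2.2 j 0).2 h4.1 fun k => hiso _ h1.1 _ (by omega)
  rw [h3.2, h4.2, zero_add] at h5
  rw [h5]
  refine Finset.sum_congr rfl fun k _ => ?_
  rw [(h1.2 j _).2 fun l => hiso W hW _ (by omega)]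
  refine Finset.sum_congr rfl fun l _ => ?_
  rw [zero_add]

theorem blow_iff (h : IsData D) {j : ℕ} (key : ∀ W, Good D W → ∀ a, 1 ≤ a → Beilinson D W j a)
    {B X W : S.Obj} {c : ℕ} (hX : Good D X) (hW : Good D W) (hb : D.Blow B X W c) :
    Beilinson D B j 0 ↔ Beilinson D X j 0 := by
  have h1 := blow_formula (h.blowUp hb) hX hW
  have h2 : ∀ k : Fin c, (D.reg W j (0 + (k + 1))).IsIso := fun k => (key W hW _ (by omega)).iso
  have h3 : ∑ k : Fin c, defect D W j (0 + (k + 1)) = 0 :=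
    Finset.sum_eq_zero fun k _ => ((beilinson_iff hW j _).1 (key W hW _ (by omega))).2
  rw [beilinson_iff h1.1, beilinson_iff hX, (h1.2 j 0).1, and_iff_left h2]
  refine and_congr_right fun hx => ?_
  rw [(h1.2 j 0).2 hx h2, h3, add_zero]

theorem prod_iff (h : IsData D) {j : ℕ} (key : ∀ W, Good D W → ∀ a, 1 ≤ a → Beilinson D W j a)
    {X : S.Obj} (m : ℕ) (hX : Good D X) : Beilinson D (D.prod X m) j 0 ↔ Beilinson D X j 0 := by
  have h1 := prod_formula (h.prod X m) hX
  have h2 : ∀ k : Fin m, (D.reg X j (0 + (k.succ : ℕ))).IsIso :=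
    fun k => (key X hX _ (by rw [Fin.val_succ]; omega)).iso
  have h3 : ∑ k : Fin m, defect D X j (0 + (k.succ : ℕ)) = 0 :=
    Finset.sum_eq_zero fun k _ => ((beilinson_iff hX j _).1
      (key X hX _ (by rw [Fin.val_succ]; omega))).2
  have h4 : (∀ k : Fin (m + 1), (D.reg X j (0 + (k : ℕ))).IsIso) ↔ (D.reg X j 0).IsIso := by
    rw [Fin.forall_fin_succ]
    exact and_iff_left h2
  rw [beilinson_iff h1.1, beilinson_iff hX, (h1.2 j 0).1, h4]
  refine and_congr_right fun hx => ?_
  rw [(h1.2 j 0).2 (h4.2 hx), Fin.sum_univ_succ, h3, add_zero]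
  rfl

theorem towersIff (h : IsData D) (hpt : Good D D.pt) {j : ℕ} (h0 : Beilinson D D.pt j 0) :
    TowersIff D j := by
  constructor
  · exact negative_of_towers h hpt
  · intro key B hB
    induction hB with
    | base N => exact (prod_iff h key N hpt).2 h0
    | blowUp hX hW hb ih => exact (blow_iff h key (tower_good h hpt hX) hW hb).2 ih

theorem allIff (h : IsData D) (hpt : Good D D.pt) (j : ℕ) : AllIff D j := by
  constructor
  · intro H X hX a
    rcases Nat.eq_zero_or_pos a with rfl | ha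
    · exact H X hX
    · exact negative_of_towers h hpt (fun B hB => H B (tower_good h hpt hB)) X hX a ha
  · exact fun H X hX => H X hX 0

theorem invariance (h : IsData D) (hpt : Good D D.pt) (j : ℕ) : Invariance D j := fun H =>
  ⟨fun _ _ _ _ hX hW hb => blow_iff h (negative_of_towers h hpt H) hX hW hb,
    fun _ m hX => prod_iff h (negative_of_towers h hpt H) m hX⟩

theorem upToDimension (h : IsData D) (j N : ℕ) : UpToDimension D j N := by
  constructor
  · intro H X hX
    have hi : ∀ a, X.dim + a ≤ N → (D.reg X j a).IsIso := by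
      intro a ha
      have h1 := prod_formula (h.prod X a) hX
      have h2 := ((h1.2 j 0).1.1 (H _ h1.1 (by rw [(h.prod X a).dim]; exact ha)).iso) (Fin.last a)
      rwa [Fin.val_last, zero_add] at h2
    have key : ∀ m, X.dim + m ≤ N → ∑ k : Fin (m + 1), defect D X j (0 + k) = 0 := by
      intro m hm
      have h1 := prod_formula (h.prod X m) hX
      rw [← (h1.2 j 0).2 fun k => hi _ (by have := k.2; omega)]
      exact ((beilinson_iff h1.1 j 0).1 (H _ h1.1 (by rw [(h.prod X m).dim]; exact hm))).2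
    intro a ha
    rcases a with _ | a
    · exact H X hX ha
    · rw [beilinson_iff hX]
      refine ⟨hi _ ha, ?_⟩
      have h1 := key a (by omega)
      have h2 := key (a + 1) ha
      rw [Fin.sum_univ_castSucc] at h2
      have h3 : ∑ k : Fin (a + 1), defect D X j (0 + (k.castSucc : ℕ)) = 0 := h1
      rw [h3, zero_add, zero_add, Fin.val_last] at h2
      exact h2
  · intro H X hX hd
    exact H X hX 0 hd

end Pool.Agent.R387.BV
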